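import Mathlib
import Pool.Agent.CGS.Main

/-!
The exact correlation gap of bipartite matchings.  Let `l = exp (-l)`.  For every `n`, every doubly
stochastic `A` and every weight matrix `W ≥ 0` with `∑ W i j * A i j = 1` the expected maximum
weight of a matching of the random graph `R(A)` is at least `2 (1 - l) - l ^ 2`, which is the
limit of the value of the uniform pair.
The definitions `DS`, `prob`, `IsMatching`, `maxW`, `Phi` are in `Pool/Agent/CGM/Defs.lean`.
-/

set_option autoImplicit false

open Finset Pool.Agent.CGM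

namespace Pool.Agent.Results.MP_3bdb72_co.CorrelationGap

theorem result :
    ∃ l : ℝ, l = Real.exp (-l) ∧ ∀ (n : ℕ) (A W : Fin n → Fin n → ℝ), DS A →
      (∀ i j, 0 ≤ W i j) → ∑ i, ∑ j, W i j * A i j = 1 → 2 * (1 - l) - l ^ 2 ≤ Phi A W := by
  refine ⟨Pool.Agent.CGS.lm, Pool.Agent.CGS.lm_eq, fun n A W hA hW h1 => ?_⟩
  have h2 := Pool.Agent.CGS.main n A W hA hW
  have h3 : ∑ i, ∑ j, A i j * W i j = 1 := by
    rw [← h1]
    exact Finset.sum_congr rfl (fun i _ => Finset.sum_congr rfl (fun j _ => mul_comm _ _))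
  rw [h3, mul_one] at h2
  exact h2

end Pool.Agent.Results.MP_3bdb72_co.CorrelationGap
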